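import Mathlib
import Pool.Agent.Helper65.MT.St

set_option autoImplicit false

open PowerSeries Pool.Agent.Helper65.MT Pool.Agent.Helper16

namespace Pool.Agent.Helper28.MT

theorem Lam_add' {m : ℕ} (x : Fin m → ℝ) (L : Fin m → ℕ) (φ ψ : Polynomial ℝ) :
    Lam x L (φ + ψ) = Lam x L φ + Lam x L ψ := by
  unfold Lam
  rw [← Finset.sum_add_distrib]
  refine Finset.sum_congr rfl fun j _ => ?_
  rw [map_add, Polynomial.coe_add, add_mul, map_add]

theorem Lam_zero' {m : ℕ} (x : Fin m → ℝ) (L : Fin m → ℕ) : Lam x L 0 = 0 := by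
  unfold Lam
  refine Finset.sum_eq_zero fun j _ => ?_
  rw [map_zero, Polynomial.coe_zero, zero_mul, map_zero]

theorem Lam_C_mul' {m : ℕ} (x : Fin m → ℝ) (L : Fin m → ℕ) (a : ℝ) (φ : Polynomial ℝ) :
    Lam x L (Polynomial.C a * φ) = a * Lam x L φ := by
  unfold Lam
  rw [Finset.mul_sum]
  refine Finset.sum_congr rfl fun j _ => ?_
  rw [Polynomial.taylor_mul, Polynomial.taylor_C, Polynomial.coe_mul, Polynomial.coe_C, mul_assoc,
    coeff_C_mul]

theorem Lam_sum' {m : ℕ} (x : Fin m → ℝ) (L : Fin m → ℕ) {α : Type*} (s : Finset α)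
    (f : α → Polynomial ℝ) : Lam x L (∑ i ∈ s, f i) = ∑ i ∈ s, Lam x L (f i) := by
  classical
  induction s using Finset.induction_on with
  | empty => simpa using Lam_zero' x L
  | insert a s ha ih => rw [Finset.sum_insert ha, Finset.sum_insert ha, Lam_add', ih]

/-- The node polynomial. -/
noncomputable def PP {m : ℕ} (x : Fin m → ℝ) (L : Fin m → ℕ) : Polynomial ℝ :=
  ∏ j, (Polynomial.X - Polynomial.C (x j)) ^ L j

theorem PP_monic {m : ℕ} (x : Fin m → ℝ) (L : Fin m → ℕ) : (PP x L).Monic :=
  Polynomial.monic_prod_of_monic _ _ fun _ _ => (Polynomial.monic_X_sub_C _).pow _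

theorem PP_natDegree {m : ℕ} (x : Fin m → ℝ) (L : Fin m → ℕ) :
    (PP x L).natDegree = ∑ j, L j := by
  rw [PP, Polynomial.natDegree_prod_of_monic]
  · refine Finset.sum_congr rfl fun i _ => ?_
    rw [Polynomial.natDegree_pow, Polynomial.natDegree_X_sub_C, mul_one]
  · intro i _
    exact (Polynomial.monic_X_sub_C _).pow _

theorem Lam_PP_mul {m : ℕ} (x : Fin m → ℝ) (L : Fin m → ℕ) (hL : ∀ j, 0 < L j)
    (φ : Polynomial ℝ) : Lam x L (φ * PP x L) = 0 := by
  unfold Lam
  refine Finset.sum_eq_zero fun j _ => ?_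
  have h1 : (Polynomial.X - Polynomial.C (x j)) ^ L j ∣ PP x L :=
    Finset.dvd_prod_of_mem (fun i => (Polynomial.X - Polynomial.C (x i)) ^ L i)
      (Finset.mem_univ j)
  rw [X_sub_C_pow_dvd_iff] at h1
  obtain ⟨r, hr⟩ := h1
  rw [Polynomial.taylor_mul, hr]
  have h2 : ((Polynomial.taylor (x j) φ * (Polynomial.X ^ L j * r) : Polynomial ℝ) : ℝ⟦X⟧) *
      B x L j = X ^ L j * (((Polynomial.taylor (x j) φ * r : Polynomial ℝ) : ℝ⟦X⟧) * B x L j) := by
    rw [Polynomial.coe_mul, Polynomial.coe_mul, Polynomial.coe_mul, Polynomial.coe_pow,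
      Polynomial.coe_X]
    ring
  rw [h2, coeff_X_pow_mul', if_neg]
  have := hL j
  omega

theorem reverse_X_sub_C' (a : ℝ) :
    (Polynomial.X - Polynomial.C a : Polynomial ℝ).reverse = 1 - Polynomial.C a * Polynomial.X := by
  ext n
  rw [Polynomial.coeff_reverse, Polynomial.natDegree_X_sub_C]
  rcases n with _ | _ | n
  · simp [Polynomial.revAt_le]
  · simp [Polynomial.revAt_le, Polynomial.coeff_one]
  · have h : Polynomial.revAt 1 (n + 1 + 1) = n + 1 + 1 := by
      rw [Polynomial.revAt_eq_self_of_lt (by omega)]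
    rw [h]
    simp [Polynomial.coeff_one, Polynomial.coeff_X]

/-- geometric series -/
noncomputable def geo (a : ℝ) : ℝ⟦X⟧ := PowerSeries.mk fun i => a ^ i

theorem geo_inv (a : ℝ) : (1 - C a * X : ℝ⟦X⟧) * geo a = 1 := by
  ext n
  rw [sub_mul, one_mul, map_sub, mul_assoc, coeff_C_mul, geo]
  cases n with
  | zero => simp
  | succ n =>
    rw [coeff_succ_X_mul, coeff_mk, coeff_mk, coeff_one]
    simp
    ring

theorem reverse_one' : (1 : Polynomial ℝ).reverse = 1 := by
  rw [← Polynomial.C_1, Polynomial.reverse_C]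

theorem reverse_pow' (p : Polynomial ℝ) (n : ℕ) : (p ^ n).reverse = p.reverse ^ n := by
  induction n with
  | zero => rw [pow_zero, pow_zero, reverse_one']
  | succ n ih => rw [pow_succ, pow_succ, Polynomial.reverse_mul_of_domain, ih]

theorem reverse_prod' {m : ℕ} (s : Finset (Fin m)) (f : Fin m → Polynomial ℝ) :
    (∏ i ∈ s, f i).reverse = ∏ i ∈ s, (f i).reverse := by
  classical
  induction s using Finset.induction_on with
  | empty => rw [Finset.prod_empty, Finset.prod_empty, reverse_one']
  | insert a s ha ih =>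
    rw [Finset.prod_insert ha, Finset.prod_insert ha, Polynomial.reverse_mul_of_domain, ih]

theorem rev_mul_V {m : ℕ} (x : Fin m → ℝ) (L : Fin m → ℕ) :
    (((PP x L).reverse : Polynomial ℝ) : ℝ⟦X⟧) * ∏ j, geo (x j) ^ L j = 1 := by
  rw [PP, reverse_prod', ← Polynomial.coeToPowerSeries.ringHom_apply, map_prod,
    ← Finset.prod_mul_distrib]
  refine Finset.prod_eq_one fun j _ => ?_
  rw [reverse_pow', map_pow, ← mul_pow, reverse_X_sub_C', map_sub, map_one, map_mul,
    Polynomial.coeToPowerSeries.ringHom_apply, Polynomial.coeToPowerSeries.ringHom_apply,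
    Polynomial.coe_X, Polynomial.coe_C, geo_inv, one_pow]

theorem rev_mul_U {m : ℕ} (x : Fin m → ℝ) (L : Fin m → ℕ) (hx : Function.Injective x)
    (hL : ∀ j, 0 < L j) (hM : 0 < ∑ j, L j) :
    (((PP x L).reverse : Polynomial ℝ) : ℝ⟦X⟧) *
      (PowerSeries.mk fun k => Lam x L (Polynomial.X ^ k)) = X ^ (∑ j, L j - 1) := by
  set M := ∑ j, L j with hMd
  set P := PP x L with hP
  have hdeg : P.natDegree = M := PP_natDegree x L
  have hmon : P.Monic := PP_monic x L
  ext n
  rw [coeff_mul, coeff_X_pow]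
  set R : Polynomial ℝ := ∑ a ∈ Finset.HasAntidiagonal.antidiagonal n,
    Polynomial.C (P.reverse.coeff a.1) * Polynomial.X ^ a.2 with hR
  have h1 : ∑ a ∈ Finset.HasAntidiagonal.antidiagonal n, coeff a.1 ((P.reverse : Polynomial ℝ) : ℝ⟦X⟧) *
      coeff a.2 (PowerSeries.mk fun k => Lam x L (Polynomial.X ^ k)) = Lam x L R := by
    rw [hR, Lam_sum']
    refine Finset.sum_congr rfl fun a _ => ?_
    rw [Lam_C_mul', Polynomial.coeff_coe, coeff_mk]
  have hRc : ∀ c, R.coeff c = if c ≤ n then P.reverse.coeff (n - c) else 0 := by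
    intro c
    rw [hR, Polynomial.finsetSum_coeff]
    have h2 : ∀ a ∈ Finset.HasAntidiagonal.antidiagonal n,
        (Polynomial.C (P.reverse.coeff a.1) * Polynomial.X ^ a.2).coeff c =
          if a = (n - c, c) then P.reverse.coeff (n - c) else 0 := by
      intro a ha
      rw [Finset.HasAntidiagonal.mem_antidiagonal] at ha
      rw [Polynomial.coeff_C_mul_X_pow]
      by_cases hc : c = a.2
      · have : a = (n - c, c) := by
          ext
          · simp; omega
          · simp [hc]
        rw [if_pos hc, if_pos this, this]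
      · rw [if_neg hc, if_neg]
        intro h
        apply hc
        rw [h]
    rw [Finset.sum_congr rfl h2]
    split_ifs with hc
    · rw [Finset.sum_ite_eq_of_mem']
      rw [Finset.HasAntidiagonal.mem_antidiagonal]
      simp
      omega
    · refine Finset.sum_eq_zero fun a ha => ?_
      rw [Finset.HasAntidiagonal.mem_antidiagonal] at ha
      rw [if_neg]
      intro h
      rw [h] at ha
      simp at ha
      omega
  rw [h1]
  rcases lt_or_ge n M with hn | hn
  · have hRd : R.natDegree ≤ n := by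
      rw [Polynomial.natDegree_le_iff_coeff_eq_zero]
      intro c hc
      rw [hRc, if_neg (by omega)]
    rw [Lam_eq_coeff hx L hL R (lt_of_le_of_lt hRd hn), hRc]
    by_cases hc : n = M - 1
    · rw [if_pos (by omega), if_pos hc, hc, Nat.sub_self, Polynomial.coeff_reverse, hdeg,
        Polynomial.revAt_le (by omega), Nat.sub_zero, ← hdeg]
      exact hmon.leadingCoeff
    · rw [if_neg (by omega), if_neg hc]
  · have hRe : R = Polynomial.X ^ (n - M) * P := by
      ext c
      rw [hRc, Polynomial.coeff_X_pow_mul']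
      split_ifs with h3 h4 h4
      · rw [Polynomial.coeff_reverse, hdeg, Polynomial.revAt_le (by omega)]
        congr 1
        omega
      · rw [Polynomial.coeff_reverse, hdeg, Polynomial.revAt_eq_self_of_lt (by omega)]
        apply Polynomial.coeff_eq_zero_of_natDegree_lt
        omega
      · symm
        apply Polynomial.coeff_eq_zero_of_natDegree_lt
        omega
      · rfl
    rw [hRe, Lam_PP_mul x L hL, if_neg (by omega)]

theorem geo_eq (W : ℝ) : geo W = rescale W (PowerSeries.mk 1 : ℝ⟦X⟧) := by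
  ext n
  rw [geo, coeff_mk, coeff_rescale, coeff_mk]
  simp

/-- GM: divided differences of monomials. -/
theorem m_GM : StGM := by
  intro m x L W k hx hL hW hxW
  rcases Nat.eq_zero_or_pos (∑ j, L j) with hM | hM
  · have hm : IsEmpty (Fin m) := by
      rw [isEmpty_iff]
      intro j
      have h1 : L j ≤ ∑ i, L i := Finset.single_le_sum (fun _ _ => Nat.zero_le _) (Finset.mem_univ j)
      have := hL j
      omega
    have h0 : Lam x L (Polynomial.X ^ k) = 0 := by
      unfold Lam
      rw [Finset.univ_eq_empty, Finset.sum_empty]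
    rw [h0, abs_zero]
    positivity
  · have hU := rev_mul_U x L hx hL hM
    have hV := rev_mul_V x L
    set V : ℝ⟦X⟧ := ∏ j, geo (x j) ^ L j with hVd
    have h1 : (PowerSeries.mk fun k => Lam x L (Polynomial.X ^ k)) = X ^ (∑ j, L j - 1) * V := by
      rw [← hU]
      calc (PowerSeries.mk fun k => Lam x L (Polynomial.X ^ k))
          = (((PP x L).reverse : Polynomial ℝ) : ℝ⟦X⟧) * V *
            (PowerSeries.mk fun k => Lam x L (Polynomial.X ^ k)) := by rw [hV, one_mul]
        _ = _ := by ring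
    have h2 : Lam x L (Polynomial.X ^ k) = coeff k (X ^ (∑ j, L j - 1) * V) := by
      rw [← h1, coeff_mk]
    rw [h2, coeff_X_pow_mul']
    split_ifs with hk
    · have hmaj : Maj V (geo W ^ (∑ j, L j)) := by
        rw [← Finset.prod_pow_eq_pow_sum]
        apply Maj.prod
        intro j _
        apply Maj.pow
        intro i
        rw [geo, geo, coeff_mk, coeff_mk, abs_of_nonneg (pow_nonneg (hxW j).1 i)]
        exact pow_le_pow_left₀ (hxW j).1 (hxW j).2 i
      refine (hmaj _).trans (le_of_eq ?_)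
      obtain ⟨d, hd⟩ : ∃ d, ∑ j, L j = d + 1 := ⟨∑ j, L j - 1, by omega⟩
      rw [hd] at hk ⊢
      rw [Nat.add_sub_cancel] at hk ⊢
      rw [geo_eq, ← map_pow, coeff_rescale, PowerSeries.mk_one_pow_eq_mk_choose_add, coeff_mk,
        Nat.add_sub_cancel' hk, mul_comm]
    · rw [abs_zero]
      positivity

end Pool.Agent.Helper28.MT
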